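import Pool.Agent.K4H49.CX.Mel

/-!
The boundary values of the primitive at all the rational numbers.
-/

set_option autoImplicit false

open Filter Topology Set UpperHalfPlane MatrixGroups CongruenceSubgroup MeasureTheory

namespace Pool.Agent.K4H49.CX

open Pool.Agent.TH940 (prim prim_deriv prim_line)

variable {N : ℕ} [NeZero N]

lemma fr_int (f : CuspForm (Gamma0 N : Subgroup (GL (Fin 2) ℝ)) 2) (r : ℚ) :
    IntegrableOn (fr f r) (Ioi 0) := by
  have h := (mel f r).1 1
  refine (integrableOn_congr_fun (fun t ht => ?_) measurableSet_Ioi).1 h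
  simp

lemma prim_eq (f : CuspForm (Gamma0 N : Subgroup (GL (Fin 2) ℝ)) 2) (r : ℚ) {y : ℝ} (hy : 0 < y) :
    prim f ((r : ℂ) + (y : ℂ) * Complex.I) = 2 * Real.pi * ∫ t in Ioi y, fr f r t := by
  have hd : ∀ t : ℝ, 0 < t → HasDerivAt (fun t : ℝ => prim f ((r : ℂ) + (t : ℂ) * Complex.I))
      (-(2 * Real.pi) * fr f r t) t := by
    intro t ht
    have h1 : HasDerivAt (fun t : ℝ => (r : ℂ) + (t : ℂ) * Complex.I) Complex.I t := by
      have h2 : HasDerivAt (fun t : ℝ => (t : ℂ)) 1 t := (hasDerivAt_id t).ofReal_comp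
      simpa using (h2.mul_const Complex.I).const_add (r : ℂ)
    have him : 0 < ((r : ℂ) + (t : ℂ) * Complex.I).im := by simpa using ht
    have h3 := prim_deriv f (ofComplex ((r : ℂ) + (t : ℂ) * Complex.I))
    rw [ofComplex_apply_of_im_pos him] at h3
    have h4 := HasDerivAt.comp t h3 h1
    refine h4.congr_deriv ?_
    unfold fr
    rw [ofComplex_apply_of_im_pos him]
    linear_combination (2 * Real.pi * f (⟨_, him⟩ : ℍ)) * Complex.I_sq
  have hi : IntegrableOn (fun t => -(2 * Real.pi) * fr f r t) (Ioi y) :=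
    Integrable.const_mul ((fr_int f r).mono_set (Ioi_subset_Ioi hy.le)) _
  have hl := prim_line f (r : ℝ)
  have h := integral_Ioi_of_hasDerivAt_of_tendsto' (a := y)
    (f := fun t : ℝ => prim f ((r : ℂ) + (t : ℂ) * Complex.I))
    (fun t ht => hd t (lt_of_lt_of_le hy ht)) hi (m := 0) (by
      refine hl.congr (fun T => ?_)
      push_cast
      rfl)
  rw [integral_const_mul, zero_sub] at h
  linear_combination h

theorem lim (f : CuspForm (Gamma0 N : Subgroup (GL (Fin 2) ℝ)) 2) (r : ℚ) :
    Tendsto (fun y : ℝ => prim f ((r : ℂ) + (y : ℂ) * Complex.I)) (𝓝[>] 0)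
      (𝓝 (2 * Real.pi * mellin (fr f r) 1)) := by
  have h1 : mellin (fr f r) 1 = ∫ t in Ioi (0 : ℝ), fr f r t := by
    unfold mellin
    refine setIntegral_congr_fun measurableSet_Ioi (fun t ht => ?_)
    simp
  rw [h1]
  have h2 : Tendsto (fun y : ℝ => ∫ t in Ioi (0 : ℝ), (Ioi y).indicator (fr f r) t) (𝓝[>] 0)
      (𝓝 (∫ t in Ioi (0 : ℝ), fr f r t)) := by
    refine tendsto_integral_filter_of_dominated_convergence (fun t => ‖fr f r t‖) ?_ ?_ ?_ ?_
    · exact Eventually.of_forall fun y =>
        (fr_int f r).aestronglyMeasurable.indicator measurableSet_Ioi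
    · exact Eventually.of_forall fun y => Eventually.of_forall fun t =>
        norm_indicator_le_norm_self _ _
    · exact (fr_int f r).norm
    · refine (ae_restrict_iff' measurableSet_Ioi).2 (Eventually.of_forall fun t (ht : 0 < t) => ?_)
      refine tendsto_const_nhds.congr' ?_
      have : Iio t ∈ 𝓝[>] (0 : ℝ) := mem_nhdsWithin_of_mem_nhds (Iio_mem_nhds ht)
      filter_upwards [this] with y (hy : y < t)
      rw [indicator_of_mem (show t ∈ Ioi y from hy)]
  refine (h2.const_mul _).congr' ?_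
  filter_upwards [self_mem_nhdsWithin] with y (hy : 0 < y)
  rw [prim_eq f r hy]
  congr 1
  rw [setIntegral_indicator measurableSet_Ioi, Ioi_inter_Ioi, max_eq_right hy.le]

end Pool.Agent.K4H49.CX
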