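import Pool.Agent.K4H49.CX.Bv

/-!
The twisted `L`-functions of a cusp form of weight two, for all conductors.
-/

set_option autoImplicit false

open Filter Topology Set UpperHalfPlane MatrixGroups CongruenceSubgroup MeasureTheory ZMod

namespace Pool.Agent.K4H49.CX

open Pool.Agent.TH940 (prim prim_deriv prim_line coeff_bd exp_norm)
open Pool.Agent.Y18.BSD (co Cf tm tm_eq ident hs_congr)

variable {N : ℕ} [NeZero N]

/-- the coefficients on the line over `r` -/
noncomputable def ar (f : CuspForm (Gamma0 N : Subgroup (GL (Fin 2) ℝ)) 2) (r : ℚ) (n : ℕ) : ℂ :=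
  co f n * Complex.exp (2 * Real.pi * Complex.I * n * r)

lemma fr_hasSum (f : CuspForm (Gamma0 N : Subgroup (GL (Fin 2) ℝ)) 2) (r : ℚ) {t : ℝ} (ht : 0 < t) :
    HasSum (fun n : ℕ => ar f r n * (Real.exp (-(2 * Real.pi * n) * t) : ℝ)) (fr f r t) := by
  have h1 : (1 : ℝ) ∈ (Gamma0 N : Subgroup (GL (Fin 2) ℝ)).strictPeriods := by
    rw [strictPeriods_Gamma0]
    exact AddSubgroup.mem_zmultiples 1
  have him : 0 < ((r : ℂ) + (t : ℂ) * Complex.I).im := by simpa using ht
  have h2 := ModularForm.hasSum_qExpansion (f := f) one_pos h1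
    (ofComplex ((r : ℂ) + (t : ℂ) * Complex.I))
  refine hs_congr h2 (fun n => ?_)
  rw [Function.Periodic.qParam, ← Complex.exp_nat_mul, ofComplex_apply_of_im_pos him]
  unfold ar co
  rw [show ((⟨(r : ℂ) + (t : ℂ) * Complex.I, him⟩ : ℍ) : ℂ) = (r : ℂ) + (t : ℂ) * Complex.I from rfl]
  have e : (n : ℂ) * (2 * Real.pi * Complex.I * (r + t * Complex.I) / ((1 : ℝ) : ℂ)) =
      2 * Real.pi * Complex.I * n * r + ((-(2 * Real.pi * n) * t : ℝ) : ℂ) := by
    push_cast
    linear_combination (2 * Real.pi * n * t : ℂ) * Complex.I_sq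
  rw [e, Complex.exp_add, Complex.ofReal_exp]
  ring

lemma ar_norm (f : CuspForm (Gamma0 N : Subgroup (GL (Fin 2) ℝ)) 2) (r : ℚ) (n : ℕ) :
    ‖ar f r n‖ = ‖co f n‖ := by
  unfold ar
  rw [norm_mul, exp_norm]
  have : (r : ℂ).im = 0 := by simp
  rw [this]
  simp

lemma fr_mellin (f : CuspForm (Gamma0 N : Subgroup (GL (Fin 2) ℝ)) 2) (r : ℚ) {s : ℂ}
    (hs : 3 < s.re) :
    HasSum (fun n : ℕ => Complex.Gamma s * ar f r n / ((2 * Real.pi * n : ℝ) : ℂ) ^ s)
      (mellin (fr f r) s) := by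
  obtain ⟨C, hC0, hC⟩ := coeff_bd f
  refine hasSum_mellin (a := ar f r) (p := fun n : ℕ => 2 * Real.pi * n) (F := fr f r) ?_
    (by linarith) (fun t ht => fr_hasSum f r ht) ?_
  · intro n
    rcases Nat.eq_zero_or_pos n with rfl | hn
    · left
      unfold ar co
      rw [W388.coeff_zero f, zero_mul]
    · right
      have : (0 : ℝ) < n := by exact_mod_cast hn
      positivity
  · have h1 : Summable (fun n : ℕ => C * (n : ℝ) ^ (1 - s.re)) :=
      (Real.summable_nat_rpow.2 (by linarith)).mul_left _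
    refine Summable.of_nonneg_of_le (fun n => by positivity) (fun n => ?_) h1
    rcases Nat.eq_zero_or_pos n with rfl | hn
    · rw [ar_norm]
      unfold co
      rw [W388.coeff_zero f, norm_zero, zero_div]
      positivity
    · have hn' : (0 : ℝ) < n := by exact_mod_cast hn
      rw [ar_norm, Real.rpow_sub hn', mul_div_assoc']
      have h2 : (n : ℝ) ^ s.re ≤ (2 * Real.pi * n) ^ s.re := by
        apply Real.rpow_le_rpow hn'.le _ (by linarith)
        nlinarith [Real.pi_gt_three]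
      exact div_le_div₀ (by positivity) (hC n hn) (by positivity) h2

/-- the Gauss sum trick -/
lemma gauss_ar (f : CuspForm (Gamma0 N : Subgroup (GL (Fin 2) ℝ)) 2) {q : ℕ} [NeZero q]
    (χ : DirichletCharacter ℂ q) (hχ : χ.IsPrimitive) (n : ℕ) :
    ∑ u : (ZMod q)ˣ, χ (u : ZMod q) * ar f (((u : ZMod q).val : ℚ) / q) n =
      gaussSum χ (stdAddChar (N := q)) * (χ⁻¹ (n : ZMod q) * co f n) := by
  have h2 := gaussSum_mulShift_of_isPrimitive (stdAddChar (N := q)) hχ (n : ZMod q)
  have h3 : gaussSum χ (stdAddChar.mulShift (n : ZMod q)) =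
      ∑ u : (ZMod q)ˣ, χ (u : ZMod q) * stdAddChar ((n : ZMod q) * (u : ZMod q)) := by
    unfold gaussSum
    simp only [AddChar.mulShift_apply]
    symm
    apply Finset.sum_of_injOn (fun u : (ZMod q)ˣ => (u : ZMod q))
    · intro a _ b _ hab
      exact Units.ext hab
    · intro a _
      simp
    · intro a _ ha
      rw [MulChar.map_nonunit _ (fun hu => ha ⟨hu.unit, by simp, by simp⟩), zero_mul]
    · intro a _
      rfl
  rw [h3] at h2
  have h4 : gaussSum χ (stdAddChar (N := q)) * (χ⁻¹ (n : ZMod q) * co f n) =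
      (χ⁻¹ (n : ZMod q) * gaussSum χ (stdAddChar (N := q))) * co f n := by ring
  rw [h4, ← h2, Finset.sum_mul]
  apply Finset.sum_congr rfl
  intro u _
  unfold ar
  have h5 : (n : ZMod q) * (u : ZMod q) = ((n * ((u : ZMod q).val : ℤ) : ℤ) : ZMod q) := by
    push_cast
    rw [ZMod.natCast_zmod_val]
  rw [h5, stdAddChar_coe]
  have h6 : 2 * (Real.pi : ℂ) * Complex.I * n * ((((u : ZMod q).val : ℚ) / q : ℚ) : ℂ) =
      2 * Real.pi * Complex.I * ((n * ((u : ZMod q).val : ℤ) : ℤ) : ℂ) / q := by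
    push_cast
    ring
  rw [h6]
  ring

theorem lf (f : CuspForm (Gamma0 N : Subgroup (GL (Fin 2) ℝ)) 2) (hc : Cf N (co f)) (q : ℕ)
    [NeZero q] (χ : DirichletCharacter ℂ q) (hχ : χ.IsPrimitive) :
    ∃ L : ℂ → ℂ, Differentiable ℂ L ∧
      (∀ s : ℂ, 3 / 2 < s.re → L s = ∑' n : ℕ, tm (co f) χ s n) ∧
      gaussSum χ⁻¹ (stdAddChar (N := q)) * L 1 =
        ∑ u : (ZMod q)ˣ, χ⁻¹ (u : ZMod q) *
          (2 * Real.pi * mellin (fr f (((u : ZMod q).val : ℚ) / q)) 1) := by
  have hχi : χ⁻¹.IsPrimitive := Pool.Agent.W440.TW.inv_primitive χ hχ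
  set G := gaussSum χ⁻¹ (stdAddChar (N := q)) with hG
  have hG0 : G ≠ 0 := Pool.Agent.W440.TW.gauss_ne_zero χ⁻¹ hχi
  have hpi : (2 * Real.pi : ℂ) ≠ 0 := by
    have := Real.pi_ne_zero
    exact_mod_cast mul_ne_zero two_ne_zero this
  set L : ℂ → ℂ := fun s => G⁻¹ * ((2 * Real.pi : ℂ) ^ s * (Complex.Gamma s)⁻¹ *
    ∑ u : (ZMod q)ˣ, χ⁻¹ (u : ZMod q) * mellin (fr f (((u : ZMod q).val : ℚ) / q)) s) with hL
  have hd : Differentiable ℂ L := by
    have h1 : Differentiable ℂ (fun s : ℂ => (2 * Real.pi : ℂ) ^ s) :=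
      differentiable_id.const_cpow (Or.inl hpi)
    have h2 : Differentiable ℂ (fun s : ℂ => (Complex.Gamma s)⁻¹) :=
      Complex.differentiable_one_div_Gamma
    have h3 : Differentiable ℂ (fun s : ℂ => ∑ u : (ZMod q)ˣ, χ⁻¹ (u : ZMod q) *
        mellin (fr f (((u : ZMod q).val : ℚ) / q)) s) :=
      Differentiable.fun_sum fun u _ => ((mel f _).2).const_mul _
    exact ((h1.mul h2).mul h3).const_mul _
  refine ⟨L, hd, ?_, ?_⟩
  · have h1 : ∀ s : ℂ, 3 / 2 < s.re → LSeriesSummable (fun n => χ (n : ZMod q) * co f n) s := by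
      intro s hs
      have h2 := (hc.summable χ hs).of_norm
      rw [tm_eq hc.zero] at h2
      exact h2
    have h2 := ident (σ0 := 3 / 2) (σ1 := 3) hd h1 (fun s hs => by
      have hs0 : 0 < s.re := by linarith
      have hΓ : Complex.Gamma s ≠ 0 := Complex.Gamma_ne_zero_of_re_pos hs0
      have h3 := hasSum_sum (s := Finset.univ) (fun (u : (ZMod q)ˣ) _ =>
        (fr_mellin f (((u : ZMod q).val : ℚ) / q) hs).mul_left (χ⁻¹ (u : ZMod q)))
      have h4 := (h3.mul_left ((2 * Real.pi : ℂ) ^ s * (Complex.Gamma s)⁻¹)).mul_left G⁻¹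
      show L s = _
      rw [show L s = _ from h4.tsum_eq.symm]
      unfold LSeries
      rw [← tm_eq hc.zero]
      refine tsum_congr fun n => ?_
      rcases Nat.eq_zero_or_pos n with rfl | hn
      · have : ∀ r : ℚ, ar f r 0 = 0 := by
          intro r
          unfold ar
          rw [hc.zero, zero_mul]
        simp only [this, tm, hc.zero, mul_zero, zero_div, zero_mul, Finset.sum_const_zero]
      · have hn' : (0 : ℝ) < n := by exact_mod_cast hn
        have hnc : ((n : ℂ)) ^ s ≠ 0 := by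
          rw [Ne, Complex.cpow_eq_zero_iff]
          push Not
          intro h
          exact absurd h (by exact_mod_cast hn.ne')
        have h2c : (2 * Real.pi : ℂ) ^ s ≠ 0 := by
          rw [Ne, Complex.cpow_eq_zero_iff]
          push Not
          intro h
          exact absurd h hpi
        have h5 : ((2 * Real.pi * n : ℝ) : ℂ) ^ s = (2 * Real.pi : ℂ) ^ s * (n : ℂ) ^ s := by
          have := Complex.mul_cpow_ofReal_nonneg (a := 2 * Real.pi) (b := n) (by positivity)
            hn'.le s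
          push_cast at this ⊢
          exact this
        have h6 : ∑ u : (ZMod q)ˣ, χ⁻¹ (u : ZMod q) * (Complex.Gamma s *
            ar f (((u : ZMod q).val : ℚ) / q) n / ((2 * Real.pi * n : ℝ) : ℂ) ^ s) =
            (∑ u : (ZMod q)ˣ, χ⁻¹ (u : ZMod q) * ar f (((u : ZMod q).val : ℚ) / q) n) *
            (Complex.Gamma s / ((2 * Real.pi * n : ℝ) : ℂ) ^ s) := by
          rw [Finset.sum_mul]
          apply Finset.sum_congr rfl
          intro u _
          ring
        rw [h6, gauss_ar f χ⁻¹ hχi n, inv_inv, h5, ← hG]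
        unfold tm
        rw [Complex.cpow_neg]
        field_simp)
    intro s hs
    rw [h2 s hs]
    unfold LSeries
    rw [← tm_eq hc.zero]
  · show G * (G⁻¹ * ((2 * Real.pi : ℂ) ^ (1 : ℂ) * (Complex.Gamma 1)⁻¹ *
      ∑ u : (ZMod q)ˣ, χ⁻¹ (u : ZMod q) * mellin (fr f (((u : ZMod q).val : ℚ) / q)) 1)) = _
    rw [mul_inv_cancel_left₀ hG0, Complex.cpow_one, Complex.Gamma_one, inv_one, mul_one,
      Finset.mul_sum]
    apply Finset.sum_congr rfl
    intro u _
    ring

end Pool.Agent.K4H49.CX
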