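import Pool.Agent.K4H53.CX.Stm
import Pool.Agent.K4H49.CX.Lf

/-!
`S_LIM` and `S_LF`.
-/

set_option autoImplicit false

open Filter Topology
open UpperHalfPlane MatrixGroups CongruenceSubgroup

namespace Pool.Agent.K4H49.CX

open Pool.Agent.Y18.BSD (co Cf tm)
open Pool.Agent.K4H53.CX (bw S_LIM S_LF)

lemma bw_eq {N : ℕ} [NeZero N] (f : CuspForm (Gamma0 N : Subgroup (GL (Fin 2) ℝ)) 2) (r : ℚ) :
    bw f r = 2 * Real.pi * mellin (fr f r) 1 :=
  (lim f r).limUnder_eq

/-- LIM: the limits exist at all rational numbers. -/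
theorem s_lim : S_LIM := fun N _ f r => by
  rw [bw_eq f r]
  exact lim f r

/-- LF: the twisted `L`-functions for all conductors. -/
theorem s_lf : S_LF := fun N _ f hc q _ χ hχ => by
  obtain ⟨L, h1, h2, h3⟩ := lf f hc q χ hχ
  refine ⟨L, h1, h2, ?_⟩
  rw [h3]
  refine Finset.sum_congr rfl fun u _ => ?_
  rw [bw_eq]

end Pool.Agent.K4H49.CX
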