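import Pool.Agent.Y18.BSD.Lf

/-!
The Mellin transform of a cusp form of weight two along the vertical line over a rational number.
-/

set_option autoImplicit false

open Filter Topology Set UpperHalfPlane MatrixGroups CongruenceSubgroup MeasureTheory
open Matrix.GeneralLinearGroup (upperRightHom)

namespace Pool.Agent.K4H49.CX

open Pool.Agent.TH940 (prim prim_deriv prim_line)

variable {N : ℕ} [NeZero N]

/-- the form on the vertical line over `r` -/
noncomputable def fr (f : CuspForm (Gamma0 N : Subgroup (GL (Fin 2) ℝ)) 2) (r : ℚ) (t : ℝ) : ℂ :=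
  f (ofComplex ((r : ℂ) + (t : ℂ) * Complex.I))

open ConjAct Pointwise in
lemma arith (Γ : Subgroup (GL (Fin 2) ℝ)) [Γ.IsArithmetic] (r : ℚ) :
    Subgroup.IsArithmetic (toConjAct (upperRightHom (r : ℝ))⁻¹ • Γ) := by
  convert Subgroup.IsArithmetic.conj Γ (upperRightHom (-r))
  ext i j
  fin_cases i <;> fin_cases j <;> simp

lemma slash_up (f : ℍ → ℂ) (k : ℤ) (h : ℝ) (τ : ℍ) :
    SlashAction.map k (upperRightHom h) f τ = f (h +ᵥ τ) := by
  have : upperRightHom h • τ = h +ᵥ τ := by
    ext
    simp [σ, num, denom, coe_vadd, UpperHalfPlane.coe_smul, num, add_comm]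
  simp_rw [ModularForm.slash_def, this]
  simp [σ, denom, Matrix.GeneralLinearGroup.val_det_apply, denom]

theorem mel (f : CuspForm (Gamma0 N : Subgroup (GL (Fin 2) ℝ)) 2) (r : ℚ) :
    (∀ s : ℂ, MellinConvergent (fr f r) s) ∧ Differentiable ℂ (mellin (fr f r)) := by
  have := arith (Gamma0 N : Subgroup (GL (Fin 2) ℝ)) r
  have hk : (0 : ℤ) < 2 := by norm_num
  let F := CuspForm.translate f (upperRightHom (r : ℝ))
  have hP := CuspForm.isStrongFEPair hk F
  have e : ∀ t : ℝ, 0 < t → (ModularForm.weakFEPair hk F).f t = fr f r t := by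
    intro t ht
    show F (ofComplex (Complex.I * t)) = _
    show SlashAction.map (2 : ℤ) (upperRightHom (r : ℝ)) (⇑f) (ofComplex (Complex.I * t)) = _
    rw [slash_up]
    unfold fr
    congr 1
    ext
    rw [coe_vadd, ofComplex_apply_of_im_pos (by simpa), ofComplex_apply_of_im_pos (by simpa)]
    show ((r : ℝ) : ℂ) + Complex.I * t = (r : ℂ) + t * Complex.I
    push_cast
    ring
  have h1 : ∀ s : ℂ, MellinConvergent (fr f r) s := by
    intro s
    have := (hP.hasMellin s).1
    refine (integrableOn_congr_fun (fun t ht => ?_) measurableSet_Ioi).1 this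
    show (t : ℂ) ^ (s - 1) • (ModularForm.weakFEPair hk F).f t = (t : ℂ) ^ (s - 1) • fr f r t
    rw [e t ht]
  refine ⟨h1, ?_⟩
  have h2 : mellin (fr f r) = mellin (ModularForm.weakFEPair hk F).f := by
    funext s
    unfold mellin
    refine setIntegral_congr_fun measurableSet_Ioi (fun t ht => ?_)
    show (t : ℂ) ^ (s - 1) • fr f r t = (t : ℂ) ^ (s - 1) • (ModularForm.weakFEPair hk F).f t
    rw [e t ht]
  rw [h2, ← hP.Λ_eq]
  exact hP.differentiable_Λ

end Pool.Agent.K4H49.CX
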